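import Pool.Agent.W177.PQ.H4b

/-!
# Task H4: powers congruent to `-1`
-/

set_option autoImplicit false

namespace Pool.Agent.W177.PQ

open NumberField Filter Topology Finset
open Pool.Agent.W401.Cheb (HasFrob xp pr TorAt M mem_pr M_congr M_mono M_smul)
open Pool.Agent.H951R4.OD (ch PI)

/-! ### From natural density to logarithmic density -/

lemma sum_pr_succ (f : ℕ → ℝ) (N : ℕ) :
    ∑ p ∈ pr (N + 1), f p = ∑ p ∈ pr N, f p + if (N + 1).Prime then f (N + 1) else 0 := by
  unfold pr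
  rw [Finset.sum_filter, Finset.sum_filter, Finset.sum_range_succ]

lemma abel (b : ℕ → ℝ) (N : ℕ) : ∑ p ∈ pr N, b p / p =
    (∑ p ∈ pr N, b p) / (N + 1) +
      ∑ n ∈ Finset.range N, (∑ p ∈ pr (n + 1), b p) / (((n : ℝ) + 1) * (n + 2)) := by
  induction N with
  | zero =>
    have : pr 0 = ∅ := by
      unfold pr
      rw [Finset.filter_eq_empty_iff]
      intro x hx
      rw [Finset.mem_range] at hx
      have : x = 0 := by omega
      rw [this]; exact Nat.not_prime_zero
    simp [this]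
  | succ N ih =>
    rw [sum_pr_succ, ih, Finset.sum_range_succ, sum_pr_succ]
    set A := ∑ p ∈ pr N, b p
    set S := ∑ n ∈ Finset.range N, (∑ p ∈ pr (n + 1), b p) / (((n : ℝ) + 1) * (n + 2))
    have h1 : (N : ℝ) + 1 ≠ 0 := by positivity
    have h2 : (N : ℝ) + 2 ≠ 0 := by positivity
    have h3 : (N : ℝ) + 1 + 1 ≠ 0 := by positivity
    split_ifs with h
    · push_cast
      field_simp
      ring
    · push_cast
      field_simp
      ring

lemma loglog_step (n : ℕ) (hn : 1 ≤ n) : Real.log (Real.log ((n : ℝ) + 2)) -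
    Real.log (Real.log ((n : ℝ) + 1)) ≤ 1 / (((n : ℝ) + 1) * Real.log ((n : ℝ) + 1)) := by
  have hn' : (1 : ℝ) ≤ n := by exact_mod_cast hn
  have h1 : 0 < Real.log ((n : ℝ) + 1) := Real.log_pos (by linarith)
  have h2 : 0 < Real.log ((n : ℝ) + 2) := Real.log_pos (by linarith)
  rw [← Real.log_div h2.ne' h1.ne']
  have h3 := Real.log_le_sub_one_of_pos (div_pos h2 h1)
  refine h3.trans ?_
  have h4 : Real.log ((n : ℝ) + 2) - Real.log ((n : ℝ) + 1) ≤ 1 / ((n : ℝ) + 1) := by
    rw [← Real.log_div (by positivity) (by positivity)]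
    refine (Real.log_le_sub_one_of_pos (by positivity)).trans (le_of_eq ?_)
    field_simp
    ring
  have h5 : Real.log ((n : ℝ) + 2) / Real.log ((n : ℝ) + 1) - 1 =
      (Real.log ((n : ℝ) + 2) - Real.log ((n : ℝ) + 1)) / Real.log ((n : ℝ) + 1) := by
    field_simp
  rw [h5, ← div_div]
  exact div_le_div_of_nonneg_right h4 h1.le

/-- A set of primes of positive lower density has positive lower logarithmic density. -/
lemma log_dens (b : ℕ → ℝ) (hb : ∀ p, p.Prime → 0 ≤ b p) (δ : ℝ) (hδ : 0 < δ)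
    (h : ∀ᶠ N : ℕ in atTop, δ ≤ M b N) :
    ∃ δ' C : ℝ, 0 < δ' ∧ ∀ z : ℕ, 3 ≤ z → δ' * Real.log (Real.log z) - C ≤
      ∑ p ∈ pr z, b p / p := by
  have hl2 : 0 < Real.log 2 := Real.log_pos (by norm_num)
  -- Chebyshev
  have h1 : ∀ᶠ N : ℕ in atTop, Real.log 2 / 2 * N / Real.log (N + 1) ≤ Nat.primeCounting N := by
    have h2 : ∀ᶠ x : ℝ in atTop, Real.log x ≤ Real.log 2 / 4 * x := by
      have := Real.isLittleO_log_id_atTop.bound (show 0 < Real.log 2 / 4 by positivity)
      filter_upwards [this, eventually_ge_atTop 1] with x hx hx1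
      rw [Real.norm_of_nonneg (Real.log_nonneg hx1), id, Real.norm_of_nonneg (by linarith)] at hx
      exact hx
    have h3 : Tendsto (fun N : ℕ => (N : ℝ) + 1) atTop atTop :=
      tendsto_atTop_add_const_right _ _ tendsto_natCast_atTop_atTop
    filter_upwards [h3.eventually h2, eventually_ge_atTop 2] with N hN hN2
    have hN2' : (2 : ℝ) ≤ N := by exact_mod_cast hN2
    have h4 := Chebyshev.pi_ge N
    have hlN : 0 < Real.log N := Real.log_pos (by linarith)
    have hlN' : Real.log N ≤ Real.log ((N : ℝ) + 1) :=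
      Real.log_le_log (by linarith) (by linarith)
    refine le_trans ?_ h4
    have h5 : Real.log 2 / 2 * N ≤ N * Real.log 2 - Real.log ((N : ℝ) + 1) := by
      nlinarith
    calc Real.log 2 / 2 * N / Real.log (N + 1) ≤ Real.log 2 / 2 * N / Real.log N := by
          gcongr
      _ ≤ _ := by gcongr
  obtain ⟨N₀, hN₀⟩ := (h1.and h).exists_forall_of_atTop
  set K := N₀ + 3 with hK
  set δ' := δ * (Real.log 2 / 4) with hδ'
  have hδ'0 : 0 < δ' := by positivity
  have hA : ∀ n : ℕ, 0 ≤ ∑ p ∈ pr n, b p := fun n =>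
    Finset.sum_nonneg fun p hp => hb p (mem_pr.mp hp).2
  have hA' : ∀ n : ℕ, N₀ ≤ n + 1 → 2 * δ' * ((n : ℝ) + 1) / Real.log ((n : ℝ) + 2) ≤
      ∑ p ∈ pr (n + 1), b p := by
    intro n hn
    obtain ⟨h2, h3⟩ := hN₀ (n + 1) hn
    unfold M at h3
    push_cast at h2
    rw [show (n : ℝ) + 1 + 1 = n + 2 by ring] at h2
    by_cases hpc : Nat.primeCounting (n + 1) = 0
    · exfalso
      rw [hpc] at h3
      simp at h3
      linarith
    · have hpc' : (0 : ℝ) < Nat.primeCounting (n + 1) := by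
        exact_mod_cast Nat.pos_of_ne_zero hpc
      rw [le_div_iff₀ hpc'] at h3
      refine le_trans ?_ h3
      calc 2 * δ' * ((n : ℝ) + 1) / Real.log ((n : ℝ) + 2)
          = δ * (Real.log 2 / 2 * ((n : ℝ) + 1) / Real.log ((n : ℝ) + 2)) := by
            rw [hδ']; ring
        _ ≤ δ * (Nat.primeCounting (n + 1) : ℝ) := by gcongr
  -- the telescoping sum
  have htel : ∀ z : ℕ, K ≤ z → δ' * (Real.log (Real.log ((z : ℝ) + 2)) -
      Real.log (Real.log ((K : ℝ) + 2))) ≤
      ∑ n ∈ Finset.Ico K z, (∑ p ∈ pr (n + 1), b p) / (((n : ℝ) + 1) * (n + 2)) := by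
    intro z hz
    induction z, hz using Nat.le_induction with
    | base => simp
    | succ z hz ih =>
      rw [Finset.sum_Ico_succ_top hz]
      have hz1 : 1 ≤ z + 1 := by omega
      have h2 := loglog_step (z + 1) hz1
      push_cast at h2 ⊢
      rw [show (z : ℝ) + 1 + 1 = z + 2 by ring] at h2
      have h3 := hA' z (by omega)
      have hz' : (0 : ℝ) ≤ z := Nat.cast_nonneg z
      have hlog : 0 < Real.log ((z : ℝ) + 2) := Real.log_pos (by linarith)
      have h4 : δ' * (1 / (((z : ℝ) + 2) * Real.log ((z : ℝ) + 2))) ≤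
          (∑ p ∈ pr (z + 1), b p) / (((z : ℝ) + 1) * (z + 2)) := by
        rw [le_div_iff₀ (by positivity)]
        refine le_trans ?_ h3
        have h5 : 0 ≤ δ' * ((z : ℝ) + 1) / Real.log ((z : ℝ) + 2) := by positivity
        have h6 : δ' * (1 / (((z : ℝ) + 2) * Real.log ((z : ℝ) + 2))) * (((z : ℝ) + 1) * (z + 2)) =
            δ' * ((z : ℝ) + 1) / Real.log ((z : ℝ) + 2) := by
          field_simp
        have h7 : 2 * δ' * ((z : ℝ) + 1) / Real.log ((z : ℝ) + 2) =
            2 * (δ' * ((z : ℝ) + 1) / Real.log ((z : ℝ) + 2)) := by ring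
        rw [h6, h7]
        linarith
      have h8 := mul_le_mul_of_nonneg_left h2 hδ'0.le
      linarith
  refine ⟨δ', δ' * |Real.log (Real.log ((K : ℝ) + 2))|, hδ'0, fun z hz => ?_⟩
  have hz' : (3 : ℝ) ≤ z := by exact_mod_cast hz
  have hlz : 1 < Real.log z := by
    rw [Real.lt_log_iff_exp_lt (by linarith)]
    have := Real.exp_one_lt_d9
    linarith
  rw [abel]
  have hS1 : 0 ≤ (∑ p ∈ pr z, b p) / ((z : ℝ) + 1) := div_nonneg (hA z) (by positivity)
  have hterm : ∀ n : ℕ, 0 ≤ (∑ p ∈ pr (n + 1), b p) / (((n : ℝ) + 1) * (n + 2)) := fun n =>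
    div_nonneg (hA _) (by positivity)
  rcases le_total K z with hKz | hKz
  · have h2 := htel z hKz
    have h3 : ∑ n ∈ Finset.Ico K z, (∑ p ∈ pr (n + 1), b p) / (((n : ℝ) + 1) * (n + 2)) ≤
        ∑ n ∈ Finset.range z, (∑ p ∈ pr (n + 1), b p) / (((n : ℝ) + 1) * (n + 2)) := by
      refine Finset.sum_le_sum_of_subset_of_nonneg ?_ fun n _ _ => hterm n
      intro n hn
      rw [Finset.mem_Ico] at hn
      rw [Finset.mem_range]
      exact hn.2
    have h4 : Real.log (Real.log z) ≤ Real.log (Real.log ((z : ℝ) + 2)) := by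
      apply Real.log_le_log (by linarith)
      exact Real.log_le_log (by linarith) (by linarith)
    have h5 := mul_le_mul_of_nonneg_left h4 hδ'0.le
    have h6 := mul_le_mul_of_nonneg_left (le_abs_self (Real.log (Real.log ((K : ℝ) + 2)))) hδ'0.le
    linarith
  · have h3 : 0 ≤ ∑ n ∈ Finset.range z, (∑ p ∈ pr (n + 1), b p) / (((n : ℝ) + 1) * (n + 2)) :=
      Finset.sum_nonneg fun n _ => hterm n
    have hKz' : (z : ℝ) ≤ K := by exact_mod_cast hKz
    have h4 : Real.log (Real.log z) ≤ Real.log (Real.log ((K : ℝ) + 2)) := by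
      apply Real.log_le_log (by linarith)
      exact Real.log_le_log (by linarith) (by linarith)
    have h5 := mul_le_mul_of_nonneg_left (h4.trans (le_abs_self _)) hδ'0.le
    linarith

lemma exists_root (g : ℕ) (hg : 2 ≤ g) : ∃ c i : ℕ, 2 ≤ c ∧ ¬ IsSquare c ∧ g = c ^ 2 ^ i := by
  induction g using Nat.strong_induction_on with
  | _ g ih =>
    by_cases h : IsSquare g
    · obtain ⟨r, hr⟩ := h
      have hr2 : 2 ≤ r := by
        by_contra hlt
        have : r = 0 ∨ r = 1 := by omega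
        rcases this with rfl | rfl <;> omega
      obtain ⟨c, i, h1, h2, h3⟩ := ih r (by nlinarith) hr2
      refine ⟨c, i + 1, h1, h2, ?_⟩
      rw [hr, h3, pow_succ, pow_mul, sq]
    · exact ⟨g, 0, hg, h, by simp⟩

theorem h4 : Pool.Agent.W114.PQ.S_H4 := by
  classical
  intro e Δ he hΔ g hg
  obtain ⟨c, i, hc2, hcs, rfl⟩ := exists_root g hg
  obtain ⟨L, iF, iN, iG, ζ, d, α, hζ, hd, hα⟩ := exists_field (2 ^ (i + 2)) (by positivity) Δ c
  obtain ⟨σ, hσ1, hσ2, hσ3⟩ := exists_sigma (by positivity) (by omega) hcs hζ hd hα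
  obtain ⟨D, hD, hT⟩ := Pool.Agent.W401.Cheb.torsor L
  set D' : ℕ := D * (2 * Δ.natAbs * c) * 2 with hD'
  have hΔ0 : 0 < Δ.natAbs := Int.natAbs_pos.mpr hΔ.ne
  have hD'0 : 0 < D' := by positivity
  set B : ℝ := (Nat.card Gal(L/ℚ) : ℝ) with hB
  have hB1 : 0 < B := by
    have : 0 < Nat.card Gal(L/ℚ) := Nat.card_pos
    rw [hB]
    exact_mod_cast this
  have hbd : ∀ p : ℕ, p.Prime → ¬ p ∣ D' → (xp L σ p : ℝ) ≤ B := by
    intro p hp hpD
    have : Fact p.Prime := ⟨hp⟩
    have h1 := (hT p (fun h => hpD ((h.mul_right _).mul_right _))).1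
    rw [hB, ← h1]
    unfold xp
    rw [dif_pos hp]
    have hfin : Finite (𝓞 L →+* AlgebraicClosure (ZMod p)) := by
      apply Nat.finite_of_card_ne_zero
      rw [h1]
      exact Nat.card_pos.ne'
    exact_mod_cast Nat.card_le_card_of_injective (Subtype.val) Subtype.val_injective
  -- the good primes
  let b : ℕ → ℝ := fun p => if p ∣ D' ∨ xp L σ p = 0 then 0 else 1
  have hb0 : ∀ p, 0 ≤ b p := fun p => by
    change 0 ≤ (if p ∣ D' ∨ xp L σ p = 0 then (0:ℝ) else 1)
    split_ifs <;> norm_num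
  have hMb : ∀ᶠ N : ℕ in atTop, 1 / (2 * B) ≤ M b N := by
    let a' : ℕ → ℝ := fun p => if p ∣ D' then 0 else 1 / B * (xp L σ p : ℝ)
    have h1 : Tendsto (M fun p => (1 / B) * (xp L σ p : ℝ)) atTop (𝓝 (1 / B)) := by
      have := (Pool.Agent.W401.Cheb.chebotarev L σ).const_mul (1 / B)
      rw [mul_one] at this
      refine this.congr fun N => ?_
      rw [M_smul]
      rfl
    have h2 : Tendsto (M a') atTop (𝓝 (1 / B)) := by
      refine M_congr hD'0 ?_ h1
      intro p _ hpD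
      change (if p ∣ D' then 0 else 1 / B * (xp L σ p : ℝ)) = _
      rw [if_neg hpD]
    have h3 : 1 / (2 * B) < 1 / B := by
      apply one_div_lt_one_div_of_lt hB1
      linarith
    filter_upwards [h2.eventually (lt_mem_nhds h3)] with N hN
    refine hN.le.trans (M_mono ?_ N)
    intro p hp
    change (if p ∣ D' then 0 else 1 / B * (xp L σ p : ℝ)) ≤
      (if p ∣ D' ∨ xp L σ p = 0 then (0:ℝ) else 1)
    by_cases hpD : p ∣ D'
    · rw [if_pos hpD, if_pos (Or.inl hpD)]
    · rw [if_neg hpD]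
      by_cases hx : xp L σ p = 0
      · rw [if_pos (Or.inr hx), hx]
        simp
      · rw [if_neg (by tauto)]
        have := hbd p hp hpD
        rw [one_div, inv_mul_le_iff₀ hB1, mul_one]
        exact this
  obtain ⟨δ, C, hδ, hsum⟩ := log_dens b (fun p _ => hb0 p) _ (by positivity) hMb
  refine ⟨δ, C, hδ, fun z hz => (hsum z hz).trans ?_⟩
  -- comparison
  have hchv : ∀ q : ℕ, -1 ≤ ch Δ q := by
    intro q
    unfold ch
    split_ifs
    · rcases jacobiSym.trichotomy Δ q with h | h | h <;> rw [h] <;> norm_num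
    · norm_num
  have hwt : ∀ q : ℕ, 0 ≤ (1 + e * ch Δ q) / (q : ℝ) := by
    intro q
    refine div_nonneg ?_ (Nat.cast_nonneg q)
    rcases he with rfl | rfl
    · norm_num
    · have := hchv q
      linarith
  have h5 : ∑ p ∈ pr z, b p / p ≤ ∑ p ∈ (pr z).filter (fun p => ¬ (p ∣ D' ∨ xp L σ p = 0)),
      (1 : ℝ) / p := by
    rw [Finset.sum_filter]
    refine Finset.sum_le_sum fun p _ => ?_
    change (if p ∣ D' ∨ xp L σ p = 0 then (0:ℝ) else 1) / p ≤ _
    split_ifs with h1 <;> simp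
  refine h5.trans ?_
  have hgood : ∀ p ∈ (pr z).filter (fun p => ¬ (p ∣ D' ∨ xp L σ p = 0)),
      p ∈ (PI 2 z).filter (fun q => ∃ j : ℕ, ((c ^ 2 ^ i : ℕ) : ZMod q) ^ j = -1) ∧
      (1 : ℝ) / p ≤ (1 + e * ch Δ p) / p := by
    intro p hp
    rw [Finset.mem_filter] at hp
    obtain ⟨hp1, hp2⟩ := hp
    rw [mem_pr] at hp1
    push Not at hp2
    have : Fact p.Prime := ⟨hp1.2⟩
    have hpD : ¬ p ∣ 2 * Δ.natAbs * c := fun h => hp2.1 ((h.mul_left _).mul_right _)
    obtain ⟨h6, h7⟩ := prime_cond hΔ.ne (by omega) hζ hd hα σ hσ1 hσ2 hσ3 p hpD hp2.2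
    have hpne : p ≠ 2 := by
      rintro rfl
      exact hp2.1 (dvd_mul_left _ _)
    have hp3 := hp1.2.two_le
    refine ⟨?_, ?_⟩
    · rw [Finset.mem_filter]
      refine ⟨?_, h7⟩
      unfold PI
      rw [Finset.mem_filter, Finset.mem_Ioc]
      exact ⟨⟨by omega, hp1.1⟩, hp1.2⟩
    · rw [h6]
      gcongr
      rcases he with rfl | rfl <;> norm_num
  refine (Finset.sum_le_sum fun p hp => (hgood p hp).2).trans ?_
  refine (Finset.sum_le_sum_of_subset_of_nonneg (fun p hp => (hgood p hp).1)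
    fun q _ _ => hwt q).trans (le_of_eq ?_)
  refine Finset.sum_congr ?_ fun _ _ => rfl
  ext q
  simp only [Finset.mem_filter]

end Pool.Agent.W177.PQ
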