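import Pool.Agent.W401.Cheb.Main

/-!
# Fourth roots and abelian extensions: the Galois part of task H4
-/

set_option autoImplicit false

namespace Pool.Agent.W177.PQ

open Polynomial IntermediateField Module NumberField Filter Topology
open Pool.Agent.W401.Cheb (HasFrob xp pr TorAt M)

section exist
attribute [-instance] DivisionRing.toRatAlgebra

lemma exists_aux (n : ℕ) (hn : 0 < n) (Δ : ℤ) (c : ℕ) : ∃ (L : Type) (_ : Field L)
    (_ : Algebra ℚ L) (_ : FiniteDimensional ℚ L) (_ : IsGalois ℚ L) (ζ d α : L),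
    IsPrimitiveRoot ζ n ∧ d ^ 2 = (Δ : L) ∧ α ^ 4 = (c : L) := by
  have hnn : NeZero n := ⟨hn.ne'⟩
  let f : ℚ[X] := cyclotomic n ℚ * ((X ^ 2 - C (Δ : ℚ)) * (X ^ 4 - C (c : ℚ)))
  have hc0 : cyclotomic n ℚ ≠ 0 := cyclotomic_ne_zero n ℚ
  have hx0 : (X ^ 2 - C (Δ : ℚ)) ≠ 0 := (monic_X_pow_sub_C _ (by norm_num)).ne_zero
  have hy0 : (X ^ 4 - C (c : ℚ)) ≠ 0 := (monic_X_pow_sub_C _ (by norm_num)).ne_zero
  have hf0 : f ≠ 0 := mul_ne_zero hc0 (mul_ne_zero hx0 hy0)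
  let L := f.SplittingField
  have : CharZero L := algebraRat.charZero L
  have hsp : Splits (f.map (algebraMap ℚ L)) := SplittingField.splits f
  have hfm0 : f.map (algebraMap ℚ L) ≠ 0 := by
    rw [Ne, Polynomial.map_eq_zero]; exact hf0
  have hsp1 : Splits ((cyclotomic n ℚ).map (algebraMap ℚ L)) :=
    hsp.of_dvd hfm0 (by rw [Polynomial.map_mul]; exact dvd_mul_right _ _)
  have hsp2 : Splits ((X ^ 2 - C (Δ : ℚ)).map (algebraMap ℚ L)) :=
    hsp.of_dvd hfm0 (by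
      rw [Polynomial.map_mul, Polynomial.map_mul]
      exact (dvd_mul_right _ _).mul_left _)
  have hsp3 : Splits ((X ^ 4 - C (c : ℚ)).map (algebraMap ℚ L)) :=
    hsp.of_dvd hfm0 (by
      rw [Polynomial.map_mul, Polynomial.map_mul]
      exact (dvd_mul_left _ _).mul_left _)
  have hnL : NeZero (n : L) := ⟨by exact_mod_cast hn.ne'⟩
  obtain ⟨ζ, hζ⟩ := hsp1.exists_eval_eq_zero (by
    rw [degree_map, degree_cyclotomic]
    exact_mod_cast (Nat.totient_pos.mpr hn).ne')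
  obtain ⟨d, hd⟩ := hsp2.exists_eval_eq_zero (by
    rw [degree_map, degree_X_pow_sub_C (by norm_num)]
    norm_num)
  obtain ⟨α, hα⟩ := hsp3.exists_eval_eq_zero (by
    rw [degree_map, degree_X_pow_sub_C (by norm_num)]
    norm_num)
  have hζ' : IsPrimitiveRoot ζ n := by
    rw [map_cyclotomic] at hζ
    exact isRoot_cyclotomic_iff.mp hζ
  have hd' : d ^ 2 = (Δ : L) := by
    rw [Polynomial.map_sub, Polynomial.map_pow, map_X, map_C, map_intCast, eval_sub, eval_pow,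
      eval_X, eval_C, sub_eq_zero] at hd
    exact hd
  have hα' : α ^ 4 = (c : L) := by
    rw [Polynomial.map_sub, Polynomial.map_pow, map_X, map_C, map_natCast, eval_sub, eval_pow,
      eval_X, eval_C, sub_eq_zero] at hα
    exact hα
  exact ⟨L, inferInstance, inferInstance, inferInstance,
    isGalois_iff.mpr ⟨inferInstance, Normal.of_isSplittingField f⟩, ζ, d, α, hζ', hd', hα'⟩

end exist

lemma exists_field (n : ℕ) (hn : 0 < n) (Δ : ℤ) (c : ℕ) : ∃ (L : Type) (_ : Field L)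
    (_ : NumberField L) (_ : IsGalois ℚ L) (ζ d α : L),
    IsPrimitiveRoot ζ n ∧ d ^ 2 = (Δ : L) ∧ α ^ 4 = (c : L) := by
  obtain ⟨L, iF, iA, iFD, iG, ζ, d, α, h1, h2, h3⟩ := exists_aux n hn Δ c
  have iC : CharZero L := algebraRat.charZero L
  have e : iA = DivisionRing.toRatAlgebra := Subsingleton.elim _ _
  subst e
  exact ⟨L, iF, { to_charZero := iC, to_finiteDimensional := iFD }, iG, ζ, d, α, h1, h2, h3⟩

lemma sq_eq {Ω : Type*} [Field Ω] {x y : Ω} (h : x ^ 2 = y ^ 2) : x = y ∨ x = -y := by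
  have h1 : (x - y) * (x + y) = 0 := by ring_nf; rw [h]; ring
  rcases mul_eq_zero.mp h1 with h2 | h2
  · exact Or.inl (sub_eq_zero.mp h2)
  · exact Or.inr (eq_neg_of_add_eq_zero_left h2)

/-- Some automorphism fixes the root of unity and the square root, but not the fourth root. -/
lemma exists_sigma {L : Type} [Field L] [NumberField L] [IsGalois ℚ L] {n : ℕ} (hn : 0 < n)
    {Δ : ℤ} {c : ℕ} (hc : 0 < c) (hsq : ¬ IsSquare c) {ζ d α : L} (hζ : IsPrimitiveRoot ζ n)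
    (hd : d ^ 2 = (Δ : L)) (hα : α ^ 4 = (c : L)) :
    ∃ σ : Gal(L/ℚ), σ ζ = ζ ∧ σ d = d ∧ σ α ≠ α := by
  by_contra hcon
  push Not at hcon
  have hnn : NeZero n := ⟨hn.ne'⟩
  have hc0 : (c : L) ≠ 0 := by exact_mod_cast hc.ne'
  have hα0 : α ≠ 0 := by
    rintro rfl
    rw [zero_pow (by norm_num)] at hα
    exact hc0 hα.symm
  have hpw : ∀ τ : Gal(L/ℚ), ∃ a : ℕ, τ ζ = ζ ^ a := by
    intro τ
    have h1 : (τ ζ) ^ n = 1 := by rw [← map_pow, hζ.pow_eq_one, map_one]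
    obtain ⟨i, -, hi⟩ := hζ.eq_pow_of_pow_eq_one h1
    exact ⟨i, hi.symm⟩
  have hdd : ∀ τ : Gal(L/ℚ), τ d = d ∨ τ d = -d := by
    intro τ
    apply sq_eq
    rw [← map_pow, hd, map_intCast]
  have hcomm : ∀ σ τ : Gal(L/ℚ), σ (τ α) = τ (σ α) := by
    intro σ τ
    have e1 : σ (τ ζ) = τ (σ ζ) := by
      obtain ⟨a, ha⟩ := hpw σ
      obtain ⟨b, hb⟩ := hpw τ
      rw [ha, hb, map_pow, map_pow, ha, hb, ← pow_mul, ← pow_mul, mul_comm]
    have e2 : σ (τ d) = τ (σ d) := by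
      rcases hdd σ with h1 | h1 <;> rcases hdd τ with h2 | h2 <;> rw [h1, h2] <;>
        simp [h1, h2]
    have h3 := hcon ((τ * σ)⁻¹ * (σ * τ)) (by
      have : (σ * τ) ζ = (τ * σ) ζ := e1
      rw [AlgEquiv.mul_apply, this]
      exact (τ * σ).symm_apply_apply ζ) (by
      have : (σ * τ) d = (τ * σ) d := e2
      rw [AlgEquiv.mul_apply, this]
      exact (τ * σ).symm_apply_apply d)
    rw [AlgEquiv.mul_apply] at h3
    have h4 := congrArg (τ * σ) h3
    have h5 : (τ * σ) ((τ * σ)⁻¹ ((σ * τ) α)) = (σ * τ) α := (τ * σ).apply_symm_apply _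
    rw [h5] at h4
    exact h4
  -- the square root of `c`
  set s : L := α ^ 2 with hs
  have hs2 : s ^ 2 = (c : L) := by rw [hs, ← pow_mul, ← hα]
  obtain ⟨τ, hτ⟩ : ∃ τ : Gal(L/ℚ), τ s ≠ s := by
    by_contra h
    push Not at h
    have h1 : s ∈ (⊥ : IntermediateField ℚ L) := (IsGalois.mem_bot_iff_fixed s).mpr h
    rw [IntermediateField.mem_bot] at h1
    obtain ⟨q, hq⟩ := h1
    apply hsq
    rw [← Rat.isSquare_natCast_iff]
    refine ⟨q, ?_⟩
    apply (algebraMap ℚ L).injective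
    rw [map_natCast, map_mul, hq, ← hs2, sq]
  have hτs : τ s = -s := by
    have : (τ s) ^ 2 = s ^ 2 := by rw [← map_pow, hs2, map_natCast]
    exact (sq_eq this).resolve_left hτ
  -- an embedding such that `s` is positive
  set R : ℝ := √(c : ℝ) with hR
  have hRc : (R : ℂ) ^ 2 = (c : ℂ) := by
    rw [← Complex.ofReal_pow, hR, Real.sq_sqrt (Nat.cast_nonneg c)]; simp
  obtain ⟨θ, hθ⟩ : ∃ θ : L →+* ℂ, θ s = (R : ℂ) := by
    obtain ⟨θ₀⟩ : Nonempty (L →+* ℂ) := inferInstance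
    have h1 : (θ₀ s) ^ 2 = (R : ℂ) ^ 2 := by rw [← map_pow, hs2, map_natCast, hRc]
    rcases sq_eq h1 with h2 | h2
    · exact ⟨θ₀, h2⟩
    · refine ⟨θ₀.comp (τ : L →+* L), ?_⟩
      change θ₀ (τ s) = _
      rw [hτs, map_neg, h2, neg_neg]
  set Q : ℝ := √R with hQ
  have hQR : (Q : ℂ) ^ 2 = (R : ℂ) := by
    rw [← Complex.ofReal_pow, hQ, Real.sq_sqrt (Real.sqrt_nonneg _)]
  have hθα : θ α = (Q : ℂ) ∨ θ α = -(Q : ℂ) := by
    apply sq_eq
    rw [← map_pow, ← hs, hθ, hQR]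
  have hcα : starRingEnd ℂ (θ α) = θ α := by
    rcases hθα with h | h <;> rw [h] <;> simp
  have hθβ : θ (τ α) = Complex.I * Q ∨ θ (τ α) = -(Complex.I * Q) := by
    apply sq_eq
    rw [← map_pow, ← map_pow, ← hs, hτs, map_neg, hθ, mul_pow, Complex.I_sq, hQR]
    ring
  have hcβ : starRingEnd ℂ (θ (τ α)) = -θ (τ α) := by
    rcases hθβ with h | h <;> rw [h] <;> simp
  obtain ⟨ρ, hρ⟩ : ∃ ρ : Gal(L/ℚ), ∀ x, θ (ρ x) = starRingEnd ℂ (θ x) := by
    obtain ⟨σ, hσ⟩ := NumberField.ComplexEmbedding.exists_comp_symm_eq_of_comp_eq (k := ℚ) θ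
      ((starRingEnd ℂ).comp θ) (Subsingleton.elim _ _)
    refine ⟨σ.symm, fun x => ?_⟩
    have := RingHom.congr_fun hσ x
    exact this
  have h1 : ρ α = α := by
    apply θ.injective
    rw [hρ, hcα]
  have h2 : ρ (τ α) = -τ α := by
    apply θ.injective
    rw [hρ, hcβ, map_neg]
  have h3 := hcomm ρ τ
  rw [h2, h1] at h3
  have h4 : τ α = 0 := by
    have : (2 : L) * τ α = 0 := by linear_combination -h3
    rcases mul_eq_zero.mp this with h | h
    · exact absurd h two_ne_zero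
    · exact h
  exact hα0 ((map_eq_zero τ).mp h4)

end Pool.Agent.W177.PQ
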