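import Pool.Agent.W177.PQ.H4a
import Pool.Agent.W114.PQ.Stm

/-!
# Task H4: the local condition
-/

set_option autoImplicit false

namespace Pool.Agent.W177.PQ

open Polynomial IntermediateField Module NumberField Filter Topology
open Pool.Agent.W401.Cheb (HasFrob xp pr TorAt M)
open Pool.Agent.H951R4.OD (ch PI)

lemma prime_cond {L : Type} [Field L] [NumberField L] [IsGalois ℚ L] {i : ℕ}
    {Δ : ℤ} (hΔ : Δ ≠ 0) {c : ℕ} (hc : 0 < c) {ζ d α : L}
    (hζ : IsPrimitiveRoot ζ (2 ^ (i + 2)))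
    (hd : d ^ 2 = (Δ : L)) (hα : α ^ 4 = (c : L)) (σ : Gal(L/ℚ)) (h1 : σ ζ = ζ) (h2 : σ d = d)
    (h3 : σ α ≠ α) (p : ℕ) [hp : Fact p.Prime] (hpD : ¬ p ∣ 2 * Δ.natAbs * c)
    (hx : xp L σ p ≠ 0) :
    ch Δ p = 1 ∧ ∃ j : ℕ, ((c ^ 2 ^ i : ℕ) : ZMod p) ^ j = -1 := by
  have hp1 : 0 < p - 1 := by have := hp.out.two_le; omega
  have hp2 : p ≠ 2 := by
    rintro rfl
    exact hpD ((dvd_mul_right 2 _).mul_right _)
  have hpc : ¬ p ∣ c := fun h => hpD (h.mul_left _)
  have hpΔ : ¬ (p : ℤ) ∣ Δ := fun h => hpD (((Int.natCast_dvd.mp h).mul_left _).mul_right _)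
  set k := AlgebraicClosure (ZMod p) with hk
  have hcp : CharP k p := charP_of_injective_algebraMap (algebraMap (ZMod p) k).injective p
  have h2k : (2 : k) ≠ 0 := by
    intro h
    have h1 : ((2 : ℕ) : k) = 0 := by exact_mod_cast h
    have h2 := (CharP.cast_eq_zero_iff k p 2).mp h1
    exact hp2 ((Nat.prime_dvd_prime_iff_eq hp.out Nat.prime_two).mp h2)
  have hck : (c : k) ≠ 0 := fun h => hpc ((CharP.cast_eq_zero_iff k p c).mp h)
  have hinj : Function.Injective (algebraMap (ZMod p) k) := (algebraMap (ZMod p) k).injective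
  have hone : ∀ x : k, x ≠ 0 → x ^ p = x → x ^ (p - 1) = 1 := by
    intro x hx h
    have h1 : x * x ^ (p - 1) = x * 1 := by
      rw [← pow_succ', Nat.sub_add_cancel hp.out.one_le, h, mul_one]
    exact mul_left_cancel₀ hx h1
  have e0 : ∀ x : k, x ^ (p - 1) = 1 → x ^ p = x := by
    intro x hx
    calc x ^ p = x ^ (p - 1 + 1) := by
          congr 1
          exact (Nat.sub_add_cancel hp.out.one_le).symm
      _ = x := by rw [pow_succ, hx, one_mul]
  -- the homomorphism
  obtain ⟨φ, hφ⟩ : ∃ φ : 𝓞 L →+* k, HasFrob p φ σ := by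
    unfold xp at hx
    rw [dif_pos hp.out] at hx
    by_contra hcon
    push Not at hcon
    apply hx
    have : IsEmpty {φ : 𝓞 L →+* k // HasFrob p φ σ} := ⟨fun φ => hcon φ.1 φ.2⟩
    exact Nat.card_of_isEmpty
  have hM : 0 < 2 ^ (i + 2) := by positivity
  have hζi : IsIntegral ℤ ζ := hζ.isIntegral hM
  have hdi : IsIntegral ℤ d := by
    refine IsIntegral.of_pow (n := 2) (by norm_num) ?_
    rw [hd]
    exact isIntegral_algebraMap (R := ℤ) (A := L) (x := Δ)
  have hαi : IsIntegral ℤ α := by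
    refine IsIntegral.of_pow (n := 4) (by norm_num) ?_
    rw [hα]
    have := isIntegral_algebraMap (R := ℤ) (A := L) (x := (c : ℤ))
    rwa [map_natCast] at this
  set z : 𝓞 L := ⟨ζ, hζi⟩ with hz
  set w : 𝓞 L := ⟨d, hdi⟩ with hw
  set t : 𝓞 L := ⟨α, hαi⟩ with ht
  have hz' : σ • z = z := by
    apply RingOfIntegers.coe_injective
    exact h1
  have hw' : σ • w = w := by
    apply RingOfIntegers.coe_injective
    exact h2
  have hwΔ : w ^ 2 = (Δ : 𝓞 L) := by
    apply RingOfIntegers.coe_injective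
    rw [map_pow, map_intCast]
    exact hd
  have htc : t ^ 4 = (c : 𝓞 L) := by
    apply RingOfIntegers.coe_injective
    rw [map_pow, map_natCast]
    exact hα
  have hzhalf : z ^ (2 ^ (i + 1)) = -1 := by
    apply RingOfIntegers.coe_injective
    rw [map_pow, map_neg, map_one]
    change ζ ^ (2 ^ (i + 1)) = -1
    have h4 : (ζ ^ (2 ^ (i + 1))) ^ 2 = (1 : L) ^ 2 := by
      rw [← pow_mul, ← pow_succ, hζ.pow_eq_one, one_pow]
    rcases sq_eq h4 with h5 | h5
    · exfalso
      have := hζ.dvd_of_pow_eq_one _ h5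
      have h6 := Nat.le_of_dvd (by positivity) this
      have h7 : 2 ^ (i + 1) < 2 ^ (i + 2) := Nat.pow_lt_pow_right (by norm_num) (by omega)
      omega
    · exact h5
  -- `2 ^ (i + 2)` divides `p - 1`
  have hφz : φ z ^ (2 ^ (i + 1)) = -1 := by rw [← map_pow, hzhalf, map_neg, map_one]
  have hφz0 : φ z ≠ 0 := by
    intro h
    rw [h, zero_pow (by positivity)] at hφz
    exact (neg_ne_zero.mpr one_ne_zero) hφz.symm
  have hord : orderOf (φ z) = 2 ^ (i + 2) := by
    refine orderOf_eq_prime_pow ?_ ?_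
    · rw [hφz]
      intro h
      apply h2k
      linear_combination h * (-1)
    · rw [pow_succ, pow_mul, hφz]; norm_num
  have hdvd : 2 ^ (i + 2) ∣ p - 1 := by
    rw [← hord]
    refine orderOf_dvd_of_pow_eq_one (hone _ hφz0 ?_)
    have := hφ z
    rw [hz'] at this
    exact this.symm
  -- `Δ` is a square
  have hch : ch Δ p = 1 := by
    have hodd : p % 2 = 1 := (hp.out.eq_two_or_odd).resolve_left hp2
    have hw0 : φ w ≠ 0 := by
      intro h
      have h4 : (φ w) ^ 2 = ((Δ : ℤ) : k) := by rw [← map_pow, hwΔ, map_intCast]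
      rw [h, zero_pow (by norm_num)] at h4
      exact hpΔ ((CharP.intCast_eq_zero_iff k p Δ).mp h4.symm)
    have h5 : φ w ^ (p - 1) = 1 := hone _ hw0 (by
      have := hφ w
      rw [hw'] at this
      exact this.symm)
    have h6 : ((Δ : ℤ) : k) ^ (p / 2) = 1 := by
      rw [← map_intCast φ, ← hwΔ, map_pow, ← pow_mul]
      have : 2 * (p / 2) = p - 1 := by omega
      rw [this, h5]
    have h7 : ((Δ : ℤ) : ZMod p) ^ (p / 2) = 1 := by
      apply hinj
      rw [map_pow, map_intCast, map_one]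
      exact h6
    have h8 : ((Δ : ℤ) : ZMod p) ≠ 0 := by
      intro h
      exact hpΔ ((ZMod.intCast_zmod_eq_zero_iff_dvd Δ p).mp h)
    have h9 : legendreSym p Δ = 1 := by
      rw [legendreSym.eq_one_iff p h8, ZMod.euler_criterion p h8]
      exact h7
    unfold ch
    rw [if_pos hodd, ← jacobiSym.legendreSym.to_jacobiSym, h9]
    norm_num
  refine ⟨hch, ?_⟩
  -- `c` is not a fourth power
  have h4dvd : 4 ∣ p - 1 := by
    have : (4:ℕ) ∣ 2 ^ (i + 2) := ⟨2 ^ i, by rw [pow_add]; ring⟩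
    exact this.trans hdvd
  have hpc0 : (c : ZMod p) ≠ 0 := fun h => hpc ((ZMod.natCast_eq_zero_iff c p).mp h)
  have hnot : (c : ZMod p) ^ ((p - 1) / 4) ≠ 1 := by
    intro h
    have h4 : φ t ^ 4 = (c : k) := by rw [← map_pow, htc, map_natCast]
    have ht0 : φ t ≠ 0 := by
      intro h0
      rw [h0, zero_pow (by norm_num)] at h4
      exact hck h4.symm
    have h5 : φ t ^ (p - 1) = 1 := by
      have h6 : φ t ^ (p - 1) = (φ t ^ 4) ^ ((p - 1) / 4) := by
        rw [← pow_mul, Nat.mul_div_cancel' h4dvd]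
      rw [h6, h4]
      have := congrArg (algebraMap (ZMod p) k) h
      rwa [map_pow, map_natCast, map_one] at this
    have h6 : φ (σ • t) = φ t := by rw [hφ t]; exact e0 _ h5
    have h7 : (σ • t - t) * ((σ • t + t) * ((σ • t) ^ 2 + t ^ 2)) = 0 := by
      have h8 : (σ • t) ^ 4 = t ^ 4 := by
        rw [htc, ← smul_pow', htc]
        apply RingOfIntegers.coe_injective
        change σ ((c : 𝓞 L) : L) = ((c : 𝓞 L) : L)
        simp
      linear_combination h8
    have h8 : σ • t - t ≠ 0 := by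
      intro h9
      apply h3
      have := congrArg (algebraMap (𝓞 L) L) (sub_eq_zero.mp h9)
      exact this
    have h9 := (mul_eq_zero.mp h7).resolve_left h8
    rcases mul_eq_zero.mp h9 with h10 | h10
    · have h11 := congrArg φ h10
      rw [map_add, h6, map_zero] at h11
      have h12 : (2 : k) * φ t = 0 := by linear_combination h11
      exact (mul_ne_zero h2k ht0) h12
    · have h11 := congrArg φ h10
      rw [map_add, map_pow, map_pow, h6, map_zero] at h11
      have h12 : (2 : k) * φ t ^ 2 = 0 := by linear_combination h11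
      exact (mul_ne_zero h2k (pow_ne_zero 2 ht0)) h12
  -- conclusion
  obtain ⟨m, hm⟩ := hdvd
  have hm4 : (p - 1) / 4 = 2 ^ i * m := by
    rw [hm, pow_add]
    have : 2 ^ i * 2 ^ 2 * m = 4 * (2 ^ i * m) := by ring
    rw [this, Nat.mul_div_cancel_left _ (by norm_num)]
  set x : ZMod p := (c : ZMod p) ^ ((p - 1) / 4) with hxdef
  have hxm : ((c ^ 2 ^ i : ℕ) : ZMod p) ^ m = x := by
    rw [Nat.cast_pow, ← pow_mul, ← hm4]
  have hx4 : (x ^ 2) ^ 2 = 1 ^ 2 := by
    rw [hxdef, ← pow_mul, ← pow_mul, one_pow]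
    have : (p - 1) / 4 * (2 * 2) = p - 1 := by
      rw [show 2 * 2 = 4 by norm_num, Nat.div_mul_cancel h4dvd]
    rw [this]
    exact ZMod.pow_card_sub_one_eq_one hpc0
  rcases sq_eq hx4 with h4 | h4
  · have h5 : x ^ 2 = 1 ^ 2 := by rw [h4, one_pow]
    rcases sq_eq h5 with h6 | h6
    · exact absurd h6 hnot
    · exact ⟨m, by rw [hxm, h6]⟩
  · exact ⟨m * 2, by rw [pow_mul, hxm, h4]⟩

end Pool.Agent.W177.PQ
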